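import Mathlib
import Pool.Agent.Lib_helper57.FA.Final

namespace Pool.Agent.Results.MP_0022d4_lc.TowerRate

open Pool.Agent.Lib57.FA

/-- For every FA-presentation `P₀` of `(ℕ; S)` over a finite alphabet there is an FA-presentation
`P` of `(ℕ; S)` over a finite alphabet whose compressibility rate relative to `P₀` is at least
`T n` for every `n`, where `T 0 = 1` and `T (n + 1) = 2 ^ T n`. -/
theorem result (A₀ : Type) [Finite A₀] (P₀ : FAPres A₀) :
    ∃ (A : Type) (_ : Finite A) (P : FAPres A), ∀ n : ℕ, T n ≤ rate P P₀ n := by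
  obtain ⟨P, hP⟩ := main P₀
  exact ⟨Col A₀, inferInstance, P, hP⟩

end Pool.Agent.Results.MP_0022d4_lc.TowerRate
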